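import Mathlib
import Pool.Agent.Q216.CB.Hard

/-!
# MP_9ab454_lc, Q1: a conform Blum measure with a class which is not recursively enumerable
-/

set_option autoImplicit false

namespace Pool.Agent.Results.MP_9ab454_lc.ConformNotRE

open Pool.Agent.Q216.CB

/-- There is a conform Blum measure with a complexity class which is not recursively
enumerable. -/
theorem result : ∃ φ Φ : ℕ → ℕ →. ℕ, IsBlum φ Φ ∧ Conform φ Φ ∧
    ∃ t : ℕ → ℕ, Computable t ∧ ¬ IsRE φ (Cls φ Φ t) :=
  ⟨phi ev, cost ev, isBlum, conform, fun _ => 0, Computable.const 0, not_re⟩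

end Pool.Agent.Results.MP_9ab454_lc.ConformNotRE
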